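import Pool.Agent.Helper70.TR.Lib

set_option autoImplicit false

namespace Pool.Agent.Helper70.TR.SL

open MeasureTheory Set Pool.Agent.Helper30.TR Pool.Agent.Helper70.TR

theorem main (hR : S_ROT) : S_SL := by
  intro θ a b κ Y ha hb hκ hY h
  have h1 : ENNReal.ofReal a * volume (SY κ univ) ≤ volume (SY κ Y)
      + ENNReal.ofReal b * ENNReal.ofReal (2 * κ) := by
    rw [vol_slices κ hY, vol_slices κ MeasurableSet.univ, ← ind_int κ hκ b,
      ← lintegral_const_mul' _ _ ENNReal.ofReal_ne_top]
    rw [← lintegral_add_right _ (measurable_const.indicator measurableSet_Icc)]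
    refine lintegral_mono fun t => ?_
    by_cases ht : |t| ≤ κ
    · rw [slice_t hκ Y t ht, slice_t hκ univ t ht, univ_inter,
        indicator_of_mem (show t ∈ Icc (-κ) κ from abs_le.1 ht), Real.volume_Icc]
      set w := Real.sqrt (κ ^ 2 - t ^ 2) with hw
      have hw0 : 0 ≤ w := Real.sqrt_nonneg _
      have hwκ : w ≤ κ := by
        rw [hw, Real.sqrt_le_left hκ.le]
        nlinarith [sq_nonneg t]
      have h2 := h w hw0 hwκ
      unfold len at h2
      rw [← ENNReal.ofReal_toReal (len_lt Y (-w) w)]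
      have h3 : w - -w = 2 * w := by ring
      rw [h3, ← ENNReal.ofReal_mul ha, ← ENNReal.ofReal_add ENNReal.toReal_nonneg hb]
      exact ENNReal.ofReal_le_ofReal (by linarith)
    · rw [slice_t_empty hκ univ t ht, measure_empty, mul_zero]
      exact bot_le
  unfold ar
  rw [vol_SY hR θ κ hY]
  rw [SY_univ] at h1
  have hfin := vol_fin κ hκ Y
  have h2 := ENNReal.toReal_mono (ENNReal.add_ne_top.2 ⟨hfin,
    ENNReal.mul_ne_top ENNReal.ofReal_ne_top ENNReal.ofReal_ne_top⟩) h1
  rw [ENNReal.toReal_add hfin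
    (ENNReal.mul_ne_top ENNReal.ofReal_ne_top ENNReal.ofReal_ne_top), ENNReal.toReal_mul,
    ENNReal.toReal_mul, ENNReal.toReal_ofReal ha, ENNReal.toReal_ofReal hb,
    ENNReal.toReal_ofReal (by positivity)] at h2
  linarith

end Pool.Agent.Helper70.TR.SL
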