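import Pool.Agent.Helper70.TR.Lib

set_option autoImplicit false

namespace Pool.Agent.Helper70.TR.SP

open MeasureTheory Set Pool.Agent.Helper30.TR Pool.Agent.Helper70.TR

/-- points of the disc with `c ∈ Y` and `c p + t q ∈ Y'` -/
def S2 (κ p q : ℝ) (Y Y' : Set ℝ) : Set (ℝ × ℝ) :=
  {z | z ∈ Ds κ ∧ z.1 ∈ Y ∧ z.1 * p + z.2 * q ∈ Y'}

theorem meas_S2 (κ p q : ℝ) {Y Y' : Set ℝ} (hY : MeasurableSet Y) (hY' : MeasurableSet Y') :
    MeasurableSet (S2 κ p q Y Y') := by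
  refine (meas_Ds κ).inter ((measurable_fst hY).inter ?_)
  have h : Measurable (fun z : ℝ × ℝ => z.1 * p + z.2 * q) := by fun_prop
  exact h hY'

/-- the slices for fixed `c` -/
theorem slice_c {κ : ℝ} (_hκ : 0 < κ) (Y : Set ℝ) (c : ℝ) (hc : |c| ≤ κ) (hcY : c ∈ Y) :
    (Prod.mk c) ⁻¹' (SY κ Y) = Icc (-Real.sqrt (κ ^ 2 - c ^ 2)) (Real.sqrt (κ ^ 2 - c ^ 2)) := by
  ext t
  simp only [SY, Ds, mem_preimage, mem_ofPred_eq, mem_Icc]
  rw [← abs_le]
  have h1 : 0 ≤ κ ^ 2 - c ^ 2 := by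
    have := sq_le_sq' (neg_le_of_abs_le hc) (le_of_abs_le hc)
    linarith
  have h2 : |t| ≤ Real.sqrt (κ ^ 2 - c ^ 2) ↔ c ^ 2 + t ^ 2 ≤ κ ^ 2 := by
    rw [Real.le_sqrt (abs_nonneg t), sq_abs]
    · constructor <;> intro h <;> linarith
    · exact h1
  rw [h2]
  tauto

theorem scale (p0 q : ℝ) (hq : q ≠ 0) (Z : Set ℝ) :
    volume {t : ℝ | p0 + t * q ∈ Z} = ENNReal.ofReal |q⁻¹| * volume Z := by
  have h1 : {t : ℝ | p0 + t * q ∈ Z} = (fun t => t * q) ⁻¹' ((fun y => p0 + y) ⁻¹' Z) := rfl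
  rw [h1, Real.volume_preimage_mul_right hq, measure_preimage_add]

theorem main (hR : S_ROT) : S_SP := by
  intro θ θ' a b κ Y Y' ha hb hκ hY hY' hs h
  set p := Real.cos (θ' - θ) with hp
  set q := Real.sin (θ' - θ) with hq
  have hpq : p ^ 2 + q ^ 2 = 1 := by
    rw [hp, hq]
    exact Real.cos_sq_add_sin_sq _
  have hq0 : 0 < |q| := abs_pos.2 hs
  have hvol : volume {x | x ∈ Ds κ ∧ hh θ x ∈ Y ∧ hh θ' x ∈ Y'} = volume (S2 κ p q Y Y') := by
    rw [← hR θ (S2 κ p q Y Y') (meas_S2 κ p q hY hY')]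
    congr 1
    ext x
    simp only [S2, Ds, mem_ofPred_eq, sq_rot, hh_rot θ θ' x]
    rfl
  have hsl : volume (SY κ Y) = ∫⁻ c, volume (Prod.mk c ⁻¹' (SY κ Y)) := by
    rw [Measure.volume_eq_prod, Measure.prod_apply (meas_SY κ hY)]
  have hsl2 : volume (S2 κ p q Y Y') = ∫⁻ c, volume (Prod.mk c ⁻¹' (S2 κ p q Y Y')) := by
    rw [Measure.volume_eq_prod, Measure.prod_apply (meas_S2 κ p q hY hY')]
  have hb' : 0 ≤ b / |q| := by positivity
  have h1 : volume (S2 κ p q Y Y') ≤ ENNReal.ofReal a * volume (SY κ Y)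
      + ENNReal.ofReal (b / |q|) * volume (Y ∩ Icc (-κ) κ) := by
    rw [hsl, hsl2, ← lintegral_const_mul' _ _ ENNReal.ofReal_ne_top]
    have h2 : ENNReal.ofReal (b / |q|) * volume (Y ∩ Icc (-κ) κ) =
        ∫⁻ c : ℝ, (Y ∩ Icc (-κ) κ).indicator (fun _ => ENNReal.ofReal (b / |q|)) c := by
      rw [lintegral_indicator (hY.inter measurableSet_Icc), setLIntegral_const]
    rw [h2, ← lintegral_add_right _ (measurable_const.indicator (hY.inter measurableSet_Icc))]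
    refine lintegral_mono fun c => ?_
    by_cases hc : c ∈ Y ∩ Icc (-κ) κ
    · have hcκ : |c| ≤ κ := abs_le.2 hc.2
      rw [indicator_of_mem hc, slice_c hκ Y c hcκ hc.1, Real.volume_Icc]
      set w := Real.sqrt (κ ^ 2 - c ^ 2) with hw
      have hw0 : 0 ≤ w := Real.sqrt_nonneg _
      have h3 : 0 ≤ κ ^ 2 - c ^ 2 := by
        have := sq_le_sq' (neg_le_of_abs_le hcκ) (le_of_abs_le hcκ)
        linarith
      have hw2 : w ^ 2 = κ ^ 2 - c ^ 2 := Real.sq_sqrt h3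
      have hw3 : w - -w = 2 * w := by ring
      rw [hw3]
      -- the interval of the values
      set y1 := c * p - w * |q| with hy1
      set y2 := c * p + w * |q| with hy2
      have hq2 : |q| ^ 2 = q ^ 2 := sq_abs q
      have hC2 : |(c * p + w * |q|)| ≤ κ := by
        apply abs_le_of_sq_le_sq _ hκ.le
        nlinarith [sq_nonneg (c * |q| - w * p)]
      have hC1 : |(c * p - w * |q|)| ≤ κ := by
        apply abs_le_of_sq_le_sq _ hκ.le
        nlinarith [sq_nonneg (c * |q| + w * p)]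
      have hsub : Prod.mk c ⁻¹' (S2 κ p q Y Y') ⊆ {t : ℝ | c * p + t * q ∈ Y' ∩ Icc y1 y2} := by
        intro t ht
        obtain ⟨ht1, ht2, ht3⟩ := ht
        have ht1' : c ^ 2 + t ^ 2 ≤ κ ^ 2 := ht1
        have ht4 : |t| ≤ w := by
          rw [hw, Real.le_sqrt (abs_nonneg t), sq_abs]
          · linarith
          · exact h3
        have ht5 : |t * q| ≤ w * |q| := by
          rw [abs_mul]
          exact mul_le_mul_of_nonneg_right ht4 (abs_nonneg q)
        have ht6 := abs_le.1 ht5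
        exact ⟨ht3, by rw [hy1]; linarith, by rw [hy2]; linarith⟩
      refine (measure_mono hsub).trans ?_
      rw [scale (c * p) q hs]
      have h5 := h y1 y2 (by linarith [abs_le.1 hC1]) (by rw [hy1, hy2]; nlinarith)
        (by linarith [abs_le.1 hC2])
      unfold len at h5
      rw [← ENNReal.ofReal_toReal (len_lt Y' y1 y2), ← ENNReal.ofReal_mul (abs_nonneg _),
        ← ENNReal.ofReal_mul ha, ← ENNReal.ofReal_add (by positivity) hb']
      apply ENNReal.ofReal_le_ofReal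
      have h6 : |q⁻¹| = |q|⁻¹ := abs_inv q
      have h7 : y2 - y1 = 2 * w * |q| := by rw [hy1, hy2]; ring
      rw [h7] at h5
      rw [h6]
      calc |q|⁻¹ * (volume (Y' ∩ Icc y1 y2)).toReal ≤ |q|⁻¹ * (a * (2 * w * |q|) + b) := by
            gcongr
        _ = a * (2 * w) + b / |q| := by
            field_simp
    · have h3 : Prod.mk c ⁻¹' (S2 κ p q Y Y') = ∅ := by
        ext t
        simp only [mem_preimage, mem_empty_iff_false, iff_false]
        rintro ⟨ht1, ht2, -⟩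
        have ht1' : c ^ 2 + t ^ 2 ≤ κ ^ 2 := ht1
        exact hc ⟨ht2, abs_le.1 (abs_le_of_sq_le_sq (by nlinarith [sq_nonneg t]) hκ.le)⟩
      rw [h3, measure_empty]
      exact bot_le
  unfold ar len
  rw [hvol, vol_SY hR θ κ hY]
  have f1 : ENNReal.ofReal a * volume (SY κ Y) ≠ ⊤ :=
    ENNReal.mul_ne_top ENNReal.ofReal_ne_top (vol_fin κ hκ Y)
  have f2 : ENNReal.ofReal (b / |q|) * volume (Y ∩ Icc (-κ) κ) ≠ ⊤ :=
    ENNReal.mul_ne_top ENNReal.ofReal_ne_top (len_lt Y (-κ) κ)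
  have h2 := ENNReal.toReal_mono (ENNReal.add_ne_top.2 ⟨f1, f2⟩) h1
  rw [ENNReal.toReal_add f1 f2, ENNReal.toReal_mul, ENNReal.toReal_mul, ENNReal.toReal_ofReal ha,
    ENNReal.toReal_ofReal hb'] at h2
  exact h2

end Pool.Agent.Helper70.TR.SP
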