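import Pool.Agent.Helper70.TR.Arc

set_option autoImplicit false

namespace Pool.Agent.Helper70.TR.YL

open MeasureTheory Set Pool.Agent.Helper30.TR Pool.Agent.Helper70.TR.Arc

theorem main : S_YL := by
  intro n σ s y1 y2 hn hσ hσn hy1 hy12 hy2
  have hn0 : (0 : ℝ) < n := by
    have : (100 : ℝ) ≤ n := by exact_mod_cast hn
    linarith
  have hn1 : (100 : ℝ) ≤ n := by exact_mod_cast hn
  have hσ1 : σ ≤ 1 / 1000 := by nlinarith
  have hpi := Real.pi_gt_three
  have hpi0 := Real.pi_pos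
  have hρ : σ * n / Real.pi ≤ 1 / 10 := by
    rw [div_le_iff₀ hpi0]
    nlinarith
  have hρ0 : 0 ≤ σ * n / Real.pi := by positivity
  rcases lt_or_ge (y2 - y1) (2 * σ) with hcase | hcase
  · have h0 : 0 ≤ len (YY n σ s ∩ Icc y1 y2) := ENNReal.toReal_nonneg
    nlinarith [mul_le_mul_of_nonneg_left hcase.le hρ0, mul_le_mul_of_nonneg_right hρ hσ.le]
  set α := n / Real.pi * Real.arccos (y2 - σ) with hα
  set β := n / Real.pi * Real.arccos (y1 + σ) with hβ
  set K := KK ((α - s) / 2) ((β - s) / 2) with hK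
  set cc : ℤ → ℝ := fun k => Real.cos (Real.pi * ((s + 2 * k : ℤ) : ℝ) / n) with hcc
  have hk : ∀ k ∈ K, 0 < s + 2 * k ∧ s + 2 * k < n ∧ y1 + σ ≤ cc k ∧ cc k ≤ y2 - σ ∧
      Real.arccos (cc k) = Real.pi * ((s + 2 * k : ℤ) : ℝ) / n := by
    intro k hk
    obtain ⟨h1, h2⟩ := mem_KK.1 hk
    have h3 : α ≤ ((s + 2 * k : ℤ) : ℝ) := by push_cast; linarith
    have h4 : ((s + 2 * k : ℤ) : ℝ) ≤ β := by push_cast; linarith
    set m : ℝ := ((s + 2 * k : ℤ) : ℝ) with hm
    have h5 : Real.arccos (y2 - σ) ≤ Real.pi * m / n := by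
      rw [hα] at h3
      rw [le_div_iff₀ hn0]
      have := mul_le_mul_of_nonneg_left h3 hpi0.le
      have e : Real.pi * (n / Real.pi * Real.arccos (y2 - σ)) = Real.arccos (y2 - σ) * n := by
        field_simp
      linarith
    have h6 : Real.pi * m / n ≤ Real.arccos (y1 + σ) := by
      rw [hβ] at h4
      rw [div_le_iff₀ hn0]
      have := mul_le_mul_of_nonneg_left h4 hpi0.le
      have e : Real.pi * (n / Real.pi * Real.arccos (y1 + σ)) = Real.arccos (y1 + σ) * n := by
        field_simp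
      linarith
    have h7 : 0 < Real.arccos (y2 - σ) := Real.arccos_pos.2 (by linarith)
    have h8 : Real.arccos (y1 + σ) < Real.pi := by
      rw [Real.arccos]
      have h9 : -(Real.pi / 2) < Real.arcsin (y1 + σ) := by
        rw [Real.neg_pi_div_two_lt_arcsin]
        linarith
      linarith
    have h10 : 0 < Real.pi * m / n := lt_of_lt_of_le h7 h5
    have h11 : Real.pi * m / n < Real.pi := lt_of_le_of_lt h6 h8
    have h12 : 0 < m := by
      by_contra hcon
      push Not at hcon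
      have : Real.pi * m / n ≤ 0 := div_nonpos_of_nonpos_of_nonneg
        (mul_nonpos_of_nonneg_of_nonpos hpi0.le hcon) hn0.le
      linarith
    have h13 : m < n := by
      rw [div_lt_iff₀ hn0] at h11
      exact lt_of_mul_lt_mul_left h11 hpi0.le
    refine ⟨by rw [hm] at h12; exact_mod_cast h12, by rw [hm] at h13; exact_mod_cast h13, ?_, ?_,
      Real.arccos_cos h10.le h11.le⟩
    · have := Real.cos_le_cos_of_nonneg_of_le_pi h10.le h8.le h6
      rwa [Real.cos_arccos (by linarith) (by linarith)] at this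
    · have := Real.cos_le_cos_of_nonneg_of_le_pi h7.le h11.le h5
      rwa [Real.cos_arccos (by linarith) (by linarith)] at this
  have hsub : (⋃ k ∈ K, Icc (cc k - σ) (cc k + σ)) ⊆ YY n σ s ∩ Icc y1 y2 := by
    intro y hy
    rw [mem_iUnion₂] at hy
    obtain ⟨k, hkK, hy⟩ := hy
    obtain ⟨a1, a2, a3, a4, -⟩ := hk k hkK
    refine ⟨⟨s + 2 * k, a1, a2, ⟨k, by ring⟩, ?_⟩, ?_⟩
    · rw [abs_le]
      exact ⟨by linarith [hy.1], by linarith [hy.2]⟩
    · exact ⟨by linarith [hy.1], by linarith [hy.2]⟩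
  have hdis : (K : Set ℤ).PairwiseDisjoint (fun k => Icc (cc k - σ) (cc k + σ)) := by
    intro k hk1 k' hk2 hne
    rw [Function.onFun, Set.disjoint_left]
    intro y hy hy'
    obtain ⟨a1, a2, a3, a4, a5⟩ := hk k hk1
    obtain ⟨b1, b2, b3, b4, b5⟩ := hk k' hk2
    have h1 : |cc k - cc k'| ≤ 2 * σ := by
      rw [abs_le]
      exact ⟨by linarith [hy.1, hy'.2, hy.2, hy'.1], by linarith [hy.1, hy'.2, hy.2, hy'.1]⟩
    have h2 := up (a := cc k) (b := cc k') (by linarith) (by linarith) (by linarith) (by linarith)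
    rw [a5, b5] at h2
    have h3 : Real.pi * ((s + 2 * k : ℤ) : ℝ) / n - Real.pi * ((s + 2 * k' : ℤ) : ℝ) / n =
        2 * Real.pi / n * ((k : ℝ) - k') := by
      push_cast
      field_simp
      ring
    have h4 : (1 : ℝ) ≤ |((k : ℝ) - k')| := by
      have h5 : (1 : ℤ) ≤ |k - k'| := Int.one_le_abs (sub_ne_zero.2 hne)
      exact_mod_cast h5
    rw [h3, abs_mul, abs_of_pos (by positivity)] at h2
    have h5 : 2 * Real.pi / n ≤ 1.01 * (2 * σ) := by
      calc 2 * Real.pi / n = 2 * Real.pi / n * 1 := (mul_one _).symm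
        _ ≤ 2 * Real.pi / n * |((k : ℝ) - k')| := by gcongr
        _ ≤ 1.01 * |cc k - cc k'| := h2
        _ ≤ _ := by gcongr
    rw [div_le_iff₀ hn0] at h5
    nlinarith
  have hvol : ENNReal.ofReal (K.card * (2 * σ)) ≤ volume (YY n σ s ∩ Icc y1 y2) := by
    refine le_trans (le_of_eq ?_) (measure_mono hsub)
    rw [measure_biUnion_finset hdis (fun k _ => measurableSet_Icc)]
    have : ∀ k ∈ K, volume (Icc (cc k - σ) (cc k + σ)) = ENNReal.ofReal (2 * σ) := by
      intro k _
      rw [Real.volume_Icc]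
      congr 1
      ring
    rw [Finset.sum_congr rfl this, Finset.sum_const, nsmul_eq_mul, ENNReal.ofReal_mul (by positivity)]
    simp
  have hab : y2 - y1 - 2 * σ ≤ Real.arccos (y1 + σ) - Real.arccos (y2 - σ) := by
    have := lo (a := y1 + σ) (b := y2 - σ) (by linarith) (by linarith) (by linarith)
    linarith
  have hcard : (β - α) / 2 - 1 ≤ (K.card : ℝ) := by
    have := card_lo ((α - s) / 2) ((β - s) / 2)
    rw [← hK] at this
    linarith
  have hβα : n / Real.pi * (y2 - y1 - 2 * σ) ≤ β - α := by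
    have : β - α = n / Real.pi * (Real.arccos (y1 + σ) - Real.arccos (y2 - σ)) := by
      rw [hα, hβ]; ring
    rw [this]
    exact mul_le_mul_of_nonneg_left hab (by positivity)
  unfold len
  have hfin : volume (YY n σ s ∩ Icc y1 y2) ≠ ⊤ :=
    ((measure_mono inter_subset_right).trans_lt measure_Icc_lt_top).ne
  refine le_trans ?_ (ENNReal.toReal_mono hfin hvol)
  rw [ENNReal.toReal_ofReal (by positivity)]
  have h1 : ((n / Real.pi * (y2 - y1 - 2 * σ)) / 2 - 1) * (2 * σ) ≤ (K.card : ℝ) * (2 * σ) := by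
    apply mul_le_mul_of_nonneg_right _ (by positivity)
    linarith
  refine le_trans ?_ h1
  have h3 : ((n / Real.pi * (y2 - y1 - 2 * σ)) / 2 - 1) * (2 * σ) =
      (σ * n / Real.pi) * (y2 - y1) - (σ * n / Real.pi) * (2 * σ) - 2 * σ := by ring
  rw [h3]
  nlinarith [mul_le_mul_of_nonneg_right hρ hσ.le]

end Pool.Agent.Helper70.TR.YL
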