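import Pool.Agent.Helper70.TR.Lib

set_option autoImplicit false

namespace Pool.Agent.Helper70.TR.YM

open MeasureTheory Set Pool.Agent.Helper30.TR

theorem main : S_YM := by
  intro n σ s
  have h : YY n σ s = ⋃ m ∈ {m : ℤ | 0 < m ∧ m < n ∧ (2 : ℤ) ∣ m - s},
      {y : ℝ | |y - Real.cos (Real.pi * m / n)| ≤ σ} := by
    ext y
    simp only [YY, mem_ofPred_eq, mem_iUnion, exists_prop]
    constructor
    · rintro ⟨m, h1, h2, h3, h4⟩
      exact ⟨m, ⟨h1, h2, h3⟩, h4⟩
    · rintro ⟨m, ⟨h1, h2, h3⟩, h4⟩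
      exact ⟨m, h1, h2, h3, h4⟩
  rw [h]
  refine MeasurableSet.biUnion (to_countable _) fun m _ => ?_
  exact measurableSet_le (by fun_prop) measurable_const

end Pool.Agent.Helper70.TR.YM
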