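import Pool.Agent.Helper70.TR.Arc

set_option autoImplicit false

namespace Pool.Agent.Helper70.TR.YU

open MeasureTheory Set Pool.Agent.Helper30.TR Pool.Agent.Helper70.TR.Arc

theorem main : S_YU := by
  intro n σ s y1 y2 hn hσ hσn hy1 hy12 hy2
  have hn0 : (0 : ℝ) < n := by
    have : (100 : ℝ) ≤ n := by exact_mod_cast hn
    linarith
  have hn1 : (100 : ℝ) ≤ n := by exact_mod_cast hn
  have hσ1 : σ ≤ 1 / 1000 := by nlinarith
  have hpi := Real.pi_gt_three
  have hpi0 := Real.pi_pos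
  set α := n / Real.pi * Real.arccos (y2 + σ) with hα
  set β := n / Real.pi * Real.arccos (y1 - σ) with hβ
  set K := KK ((α - s) / 2) ((β - s) / 2) with hK
  have hsub : YY n σ s ∩ Icc y1 y2 ⊆ ⋃ k ∈ K,
      Icc (Real.cos (Real.pi * ((s + 2 * k : ℤ) : ℝ) / n) - σ)
        (Real.cos (Real.pi * ((s + 2 * k : ℤ) : ℝ) / n) + σ) := by
    rintro y ⟨⟨m, hm0, hmn, hms, hy⟩, hy3⟩
    obtain ⟨k, hk⟩ := hms
    have hmk : m = s + 2 * k := by linarith
    have hm0' : (0 : ℝ) < m := by exact_mod_cast hm0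
    have hmn' : (m : ℝ) < n := by exact_mod_cast hmn
    have h1 : 0 ≤ Real.pi * m / n := by positivity
    have h2 : Real.pi * m / n ≤ Real.pi := by
      rw [div_le_iff₀ hn0]
      nlinarith
    have h3 : Real.arccos (Real.cos (Real.pi * m / n)) = Real.pi * m / n := Real.arccos_cos h1 h2
    have hy' := abs_le.1 hy
    have h4 : Real.cos (Real.pi * m / n) ≤ y2 + σ := by linarith [hy3.2, hy'.1]
    have h5 : y1 - σ ≤ Real.cos (Real.pi * m / n) := by linarith [hy3.1, hy'.2]
    have h6 := Real.arccos_le_arccos h4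
    have h7 := Real.arccos_le_arccos h5
    rw [h3] at h6 h7
    have h8 : (m : ℝ) = n / Real.pi * (Real.pi * m / n) := by field_simp
    have h9 : α ≤ m := by
      rw [h8, hα]
      exact mul_le_mul_of_nonneg_left h6 (by positivity)
    have h10 : (m : ℝ) ≤ β := by
      rw [h8, hβ]
      exact mul_le_mul_of_nonneg_left h7 (by positivity)
    have hmk' : (m : ℝ) = s + 2 * k := by rw [hmk]; push_cast; ring
    rw [mem_iUnion₂]
    refine ⟨k, mem_KK.2 ⟨by linarith, by linarith⟩, ?_⟩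
    rw [← hmk]
    exact ⟨by linarith [hy'.1], by linarith [hy'.2]⟩
  have hvol : volume (YY n σ s ∩ Icc y1 y2) ≤ ENNReal.ofReal (K.card * (2 * σ)) := by
    refine (measure_mono hsub).trans ((measure_biUnion_finset_le _ _).trans ?_)
    have : ∀ k ∈ K, volume (Icc (Real.cos (Real.pi * ((s + 2 * k : ℤ) : ℝ) / n) - σ)
        (Real.cos (Real.pi * ((s + 2 * k : ℤ) : ℝ) / n) + σ)) = ENNReal.ofReal (2 * σ) := by
      intro k _
      rw [Real.volume_Icc]
      congr 1
      ring
    rw [Finset.sum_congr rfl this, Finset.sum_const, nsmul_eq_mul, ENNReal.ofReal_mul (by positivity)]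
    simp
  have hab : Real.arccos (y1 - σ) - Real.arccos (y2 + σ) ≤ 1.01 * (y2 - y1 + 2 * σ) := by
    have h1 := up (a := y1 - σ) (b := y2 + σ) (by linarith) (by linarith) (by linarith)
      (by linarith)
    have h2 : |(y1 - σ) - (y2 + σ)| = y2 - y1 + 2 * σ := by
      rw [abs_of_nonpos (by linarith)]
      ring
    rw [h2] at h1
    exact (le_abs_self _).trans h1
  have hba : Real.arccos (y2 + σ) ≤ Real.arccos (y1 - σ) := Real.arccos_le_arccos (by linarith)
  have hαβ : α ≤ β := by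
    rw [hα, hβ]
    exact mul_le_mul_of_nonneg_left hba (by positivity)
  have hcard : (K.card : ℝ) ≤ (β - α) / 2 + 1 := by
    have := card_up (A := (α - s) / 2) (B := (β - s) / 2) (by linarith)
    rw [← hK] at this
    linarith
  have hβα : β - α ≤ n / Real.pi * (1.01 * (y2 - y1 + 2 * σ)) := by
    have : β - α = n / Real.pi * (Real.arccos (y1 - σ) - Real.arccos (y2 + σ)) := by
      rw [hα, hβ]; ring
    rw [this]
    exact mul_le_mul_of_nonneg_left hab (by positivity)
  unfold len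
  refine (ENNReal.toReal_mono ENNReal.ofReal_ne_top hvol).trans ?_
  rw [ENNReal.toReal_ofReal (by positivity)]
  have h1 : (K.card : ℝ) * (2 * σ) ≤ ((n / Real.pi * (1.01 * (y2 - y1 + 2 * σ))) / 2 + 1) * (2 * σ) := by
    apply mul_le_mul_of_nonneg_right _ (by positivity)
    linarith
  refine h1.trans ?_
  have h2 : σ * n / Real.pi ≤ 1 / 10 := by
    rw [div_le_iff₀ hpi0]
    nlinarith
  have h3 : ((n / Real.pi * (1.01 * (y2 - y1 + 2 * σ))) / 2 + 1) * (2 * σ) =
      1.01 * (σ * n / Real.pi) * (y2 - y1) + 1.01 * (σ * n / Real.pi) * (2 * σ) + 2 * σ := by ring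
  rw [h3]
  have h4 : 0 ≤ σ * n / Real.pi := by positivity
  have h5 : 0 ≤ y2 - y1 := by linarith
  nlinarith [mul_nonneg h4 h5, mul_le_mul_of_nonneg_right h2 hσ.le]

end Pool.Agent.Helper70.TR.YU
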