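import Pool.Agent.Helper30.TR.Spec

set_option autoImplicit false

namespace Pool.Agent.Helper70.TR.Arc

open MeasureTheory Set Pool.Agent.Helper30.TR

theorem up {a b : ℝ} (ha : -(102 / 1000) ≤ a) (ha' : a ≤ 102 / 1000) (hb : -(102 / 1000) ≤ b)
    (hb' : b ≤ 102 / 1000) : |Real.arccos a - Real.arccos b| ≤ 1.01 * |a - b| := by
  have h1 : ∀ x ∈ Icc (-(102 / 1000) : ℝ) (102 / 1000),
      HasDerivWithinAt Real.arccos (-(1 / Real.sqrt (1 - x ^ 2))) (Icc (-(102 / 1000)) (102 / 1000)) x := by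
    intro x hx
    exact (Real.hasDerivAt_arccos (by linarith [hx.1]) (by linarith [hx.2])).hasDerivWithinAt
  have h2 : ∀ x ∈ Icc (-(102 / 1000) : ℝ) (102 / 1000), ‖-(1 / Real.sqrt (1 - x ^ 2))‖ ≤ 1.01 := by
    intro x hx
    have h3 : (995 / 1000 : ℝ) ^ 2 - 1 / 1000 ≤ 1 - x ^ 2 := by nlinarith [hx.1, hx.2]
    have h4 : (994 / 1000 : ℝ) ≤ Real.sqrt (1 - x ^ 2) := by
      apply Real.le_sqrt_of_sq_le
      nlinarith [hx.1, hx.2]
    rw [norm_neg, Real.norm_eq_abs, abs_of_nonneg (by positivity), div_le_iff₀ (by linarith)]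
    linarith
  have h5 := Convex.norm_image_sub_le_of_norm_hasDerivWithin_le h1 h2 (convex_Icc _ _)
    (show b ∈ Icc (-(102 / 1000) : ℝ) (102 / 1000) from ⟨hb, hb'⟩)
    (show a ∈ Icc (-(102 / 1000) : ℝ) (102 / 1000) from ⟨ha, ha'⟩)
  exact h5

theorem lo {a b : ℝ} (ha : -1 ≤ a) (hab : a ≤ b) (hb : b ≤ 1) :
    b - a ≤ Real.arccos a - Real.arccos b := by
  have h1 : Real.cos (Real.arccos a) = a := Real.cos_arccos ha (hab.trans hb)
  have h2 : Real.cos (Real.arccos b) = b := Real.cos_arccos (ha.trans hab) hb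
  have h3 : Real.arccos b ≤ Real.arccos a := Real.arccos_le_arccos hab
  have h4 := Real.cos_sub_cos (Real.arccos b) (Real.arccos a)
  rw [h1, h2] at h4
  set u := Real.arccos a with hu
  set v := Real.arccos b with hv
  have h5 : |Real.sin ((v - u) / 2)| ≤ (u - v) / 2 := by
    have := Real.abs_sin_le_abs (x := (v - u) / 2)
    have h6 : |(v - u) / 2| = (u - v) / 2 := by
      rw [abs_of_nonpos (by linarith)]
      ring
    rwa [h6] at this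
  have h7 : |Real.sin ((v + u) / 2)| ≤ 1 := Real.abs_sin_le_one _
  have h8 : |(b - a)| ≤ u - v := by
    rw [h4, abs_mul, abs_mul]
    have : |(-2 : ℝ)| = 2 := by norm_num
    rw [this]
    nlinarith [abs_nonneg (Real.sin ((v - u) / 2)), abs_nonneg (Real.sin ((v + u) / 2))]
  exact (le_abs_self _).trans h8

/-- the indices -/
noncomputable def KK (A B : ℝ) : Finset ℤ := Finset.Icc ⌈A⌉ ⌊B⌋

theorem card_up {A B : ℝ} (h : A ≤ B + 1) : ((KK A B).card : ℝ) ≤ B - A + 1 := by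
  unfold KK
  rw [Int.card_Icc]
  rcases le_or_gt 0 (⌊B⌋ + 1 - ⌈A⌉) with h1 | h1
  · have h2 : ((⌊B⌋ + 1 - ⌈A⌉).toNat : ℤ) = ⌊B⌋ + 1 - ⌈A⌉ := Int.toNat_of_nonneg h1
    have h3 : (((⌊B⌋ + 1 - ⌈A⌉).toNat : ℕ) : ℝ) = ⌊B⌋ + 1 - ⌈A⌉ := by exact_mod_cast h2
    rw [h3]
    have := Int.floor_le B
    have := Int.le_ceil A
    linarith
  · rw [Int.toNat_of_nonpos h1.le]
    push_cast
    linarith

theorem card_lo (A B : ℝ) : B - A - 1 ≤ ((KK A B).card : ℝ) := by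
  unfold KK
  rw [Int.card_Icc]
  have h2 : ⌊B⌋ + 1 - ⌈A⌉ ≤ ((⌊B⌋ + 1 - ⌈A⌉).toNat : ℤ) := Int.self_le_toNat _
  have h3 : ((⌊B⌋ : ℝ) + 1 - ⌈A⌉) ≤ (((⌊B⌋ + 1 - ⌈A⌉).toNat : ℕ) : ℝ) := by exact_mod_cast h2
  refine le_trans ?_ h3
  have := Int.lt_floor_add_one B
  have := Int.ceil_lt_add_one A
  linarith

theorem mem_KK {A B : ℝ} {k : ℤ} : k ∈ KK A B ↔ A ≤ k ∧ (k : ℝ) ≤ B := by
  unfold KK
  rw [Finset.mem_Icc, Int.ceil_le, Int.le_floor]

end Pool.Agent.Helper70.TR.Arc
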