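import Pool.Agent.Helper30.TR.Spec

set_option autoImplicit false

namespace Pool.Agent.Helper70.TR

open MeasureTheory Set Pool.Agent.Helper30.TR

theorem cont_hh (θ : ℝ) : Continuous (hh θ) := by
  unfold hh
  fun_prop

theorem meas_Ds (r : ℝ) : MeasurableSet (Ds r) := by
  unfold Ds
  exact measurableSet_le (by fun_prop) measurable_const

theorem sq_rot (θ : ℝ) (x : ℝ × ℝ) :
    (hh θ x) ^ 2 + (hh (θ + Real.pi / 2) x) ^ 2 = x.1 ^ 2 + x.2 ^ 2 := by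
  unfold hh
  rw [Real.cos_add_pi_div_two, Real.sin_add_pi_div_two]
  have h := Real.sin_sq_add_cos_sq θ
  nlinarith [h]

theorem hh_rot (θ θ' : ℝ) (x : ℝ × ℝ) :
    hh θ' x = hh θ x * Real.cos (θ' - θ) + hh (θ + Real.pi / 2) x * Real.sin (θ' - θ) := by
  unfold hh
  rw [Real.cos_add_pi_div_two, Real.sin_add_pi_div_two, Real.cos_sub, Real.sin_sub]
  have h := Real.sin_sq_add_cos_sq θ
  linear_combination (-x.1 * Real.cos θ' - x.2 * Real.sin θ') * h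

/-- points of the disc with first coordinate in `Y` -/
def SY (κ : ℝ) (Y : Set ℝ) : Set (ℝ × ℝ) := {p | p ∈ Ds κ ∧ p.1 ∈ Y}

theorem meas_SY (κ : ℝ) {Y : Set ℝ} (hY : MeasurableSet Y) : MeasurableSet (SY κ Y) :=
  (meas_Ds κ).inter (measurable_fst hY)

theorem vol_SY (hR : S_ROT) (θ κ : ℝ) {Y : Set ℝ} (hY : MeasurableSet Y) :
    volume {x | x ∈ Ds κ ∧ hh θ x ∈ Y} = volume (SY κ Y) := by
  rw [← hR θ (SY κ Y) (meas_SY κ hY)]
  congr 1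
  ext x
  simp only [SY, Ds, mem_ofPred_eq, sq_rot]

theorem slice_t {κ : ℝ} (hκ : 0 < κ) (Y : Set ℝ) (t : ℝ) (ht : |t| ≤ κ) :
    (fun c : ℝ => (c, t)) ⁻¹' (SY κ Y) =
      Y ∩ Icc (-Real.sqrt (κ ^ 2 - t ^ 2)) (Real.sqrt (κ ^ 2 - t ^ 2)) := by
  ext c
  simp only [SY, Ds, mem_preimage, mem_ofPred_eq, mem_inter_iff, mem_Icc]
  rw [← abs_le]
  have h1 : 0 ≤ κ ^ 2 - t ^ 2 := by
    have := sq_le_sq' (neg_le_of_abs_le ht) (le_of_abs_le ht)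
    linarith
  have h2 : |c| ≤ Real.sqrt (κ ^ 2 - t ^ 2) ↔ c ^ 2 + t ^ 2 ≤ κ ^ 2 := by
    rw [Real.le_sqrt (abs_nonneg c), sq_abs]
    · constructor <;> intro h <;> linarith
    · exact h1
  rw [h2]
  tauto

theorem slice_t_empty {κ : ℝ} (hκ : 0 < κ) (Y : Set ℝ) (t : ℝ) (ht : ¬ |t| ≤ κ) :
    (fun c : ℝ => (c, t)) ⁻¹' (SY κ Y) = ∅ := by
  ext c
  simp only [SY, Ds, mem_preimage, mem_ofPred_eq, mem_empty_iff_false, iff_false, not_and]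
  intro h
  exfalso
  apply ht
  apply abs_le_of_sq_le_sq _ hκ.le
  nlinarith [sq_nonneg c]

theorem vol_slices (κ : ℝ) {Y : Set ℝ} (hY : MeasurableSet Y) :
    volume (SY κ Y) = ∫⁻ t, volume ((fun c : ℝ => (c, t)) ⁻¹' (SY κ Y)) := by
  rw [Measure.volume_eq_prod, Measure.prod_apply_symm (meas_SY κ hY)]

theorem vol_fin (κ : ℝ) (hκ : 0 < κ) (Y : Set ℝ) : volume (SY κ Y) ≠ ⊤ := by
  have h : SY κ Y ⊆ Icc (-κ) κ ×ˢ Icc (-κ) κ := by
    rintro p ⟨hp, -⟩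
    have hp' : p.1 ^ 2 + p.2 ^ 2 ≤ κ ^ 2 := hp
    refine ⟨abs_le.1 (abs_le_of_sq_le_sq (by nlinarith [sq_nonneg p.2]) hκ.le),
      abs_le.1 (abs_le_of_sq_le_sq (by nlinarith [sq_nonneg p.1]) hκ.le)⟩
  exact ((measure_mono h).trans_lt (isCompact_Icc.prod isCompact_Icc).measure_lt_top).ne

theorem SY_univ (κ : ℝ) : SY κ univ = Ds κ := by
  ext p
  simp [SY]

theorem ind_int (κ : ℝ) (_hκ : 0 < κ) (b : ℝ) :
    ∫⁻ t : ℝ, (Icc (-κ) κ).indicator (fun _ => ENNReal.ofReal b) t =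
      ENNReal.ofReal b * ENNReal.ofReal (2 * κ) := by
  rw [lintegral_indicator measurableSet_Icc, setLIntegral_const, Real.volume_Icc]
  congr 2
  ring

theorem len_lt (Y : Set ℝ) (u v : ℝ) : volume (Y ∩ Icc u v) ≠ ⊤ :=
  ((measure_mono inter_subset_right).trans_lt measure_Icc_lt_top).ne

end Pool.Agent.Helper70.TR
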